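import Mathlib
import Pool.Agent.Lib_helper57.LDCDefs
import Pool.Agent.Lib_helper89.NN.Problem
import Pool.Agent.Lib_helper89.NN.Main

/-! The 2-interval pattern problem for the model {<, crossing} on disjoint ground sets is NP-hard
even if every ground interval lies in at most three 2-intervals. -/

namespace Pool.Agent.Results.MP_8c0258_lc.DegreeThreeHard

open Pool.Agent.Lib57 Pool.Agent.Lib89.NN

/-- Deciding whether the maximum cardinality of a `{<, ≬}`-comparable subset is half the number
of ground intervals is NP-hard on sets of 2-intervals with disjoint ground set in which every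
ground interval lies in at most three 2-intervals; a polynomial-time algorithm that outputs a
maximum `{<, ≬}`-comparable subset for all such sets yields `NP ⊆ P`. -/
theorem result :
    (∀ B ∈ N68a2faeb.NP, ∃ f : List Bool → List Bool, N68a2faeb.IsPolyTime f ∧
      ∀ x, ∃ (m : ℕ) (G : SimpleGraph (Fin m)), f x = encodeGraph G ∧ Sparse G ∧
        (B x = true ↔ 2 * opt (ofGraph G) = m)) ∧
    ((∃ alg : List Bool → List Bool, N68a2faeb.IsPolyTime alg ∧ Solves alg) →
      N68a2faeb.NP ⊆ N68a2faeb.P) :=
  ⟨hard, fun ⟨alg, h1, h2⟩ => collapse alg h1 h2⟩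

end Pool.Agent.Results.MP_8c0258_lc.DegreeThreeHard
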