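import Mathlib
import Pool.Agent.Lib_helper57.LDCDefs
import Pool.Agent.Lib_helper89.NN.Problem
import Pool.Agent.Lib_helper89.N2.Problem2
import Pool.Agent.Lib_helper89.N2.Main

/-! The 2-interval pattern problem for the model {<, crossing} on disjoint ground sets is NP-hard
even if every ground interval lies in at most two 2-intervals. -/

namespace Pool.Agent.Results.MP_8c0258_lc.DegreeTwoHard

open Pool.Agent.Lib57 Pool.Agent.Lib89.NN Pool.Agent.Lib89.N2

/-- Deciding whether a set of 2-intervals has a `{<, ≬}`-comparable subset with at least `k`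
members is NP-hard on sets with disjoint ground set in which every ground interval lies in at
most two 2-intervals; a polynomial-time decision procedure for all these sets yields `NP ⊆ P`. -/
theorem result :
    (∀ B ∈ N68a2faeb.NP, ∃ f : List Bool → List Bool, N68a2faeb.IsPolyTime f ∧
      ∀ x, ∃ (m k : ℕ) (G : SimpleGraph (Fin m)), f x = inst G k ∧ Sparse2 G ∧
        (B x = true ↔ k ≤ opt (ofGraph G))) ∧
    ((∃ A ∈ N68a2faeb.P, ∀ (m k : ℕ) (G : SimpleGraph (Fin m)), Sparse2 G →
      (A (inst G k) = true ↔ k ≤ opt (ofGraph G))) → N68a2faeb.NP ⊆ N68a2faeb.P) :=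
  ⟨hard2, fun ⟨A, hA, h⟩ => collapse2 A hA h⟩

end Pool.Agent.Results.MP_8c0258_lc.DegreeTwoHard
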